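import Mathlib
import Pool.Agent.H73.SharpShadings.Defs
import Pool.Agent.H73.KMAX.Final
import Pool.Agent.H15.KMAX.MNR
import Pool.Agent.H13.K2S.KP2

/-!
# Kakeya in `ℝ³` and `ℝ⁴`: the sharp power of the density for shadings with boundedly many scales
-/

set_option autoImplicit false

namespace Pool.Agent.H73.R4.Candidate

open MeasureTheory Pool.Agent.H73.SharpShadings

/-- If a set `X` contains a portion `μ` of each ball of radius `δ` about the points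
`c i + t e i`, `t` in `A i`, then its volume is at least
`b μ κ ^ P δ ^ ε (∏ σ k / ρ k) ^ n (N δ ^ (n - 1))`, `n = m + 1`. -/
theorem sharp (hKP : Pool.KA.KP 3) (m : ℕ) (hm : m = 2 ∨ m = 3) (K : ℕ) (ε : ℝ) (hε : 0 < ε) :
    ∃ b P : ℝ, 0 < b ∧ 0 ≤ P ∧ ∀ δ : ℝ, 0 < δ → δ < 1 → ∀ σ ρ : ℕ → ℝ, σ 0 = 1 →
      ρ (K + 1) = δ → (∀ k ≤ K, ρ (k + 1) ≤ σ k) → (∀ k < K, σ (k + 1) ≤ ρ (k + 1)) →
      ∀ κ : ℝ, 0 < κ → κ ≤ 1 → ∀ (N : ℕ) (c e : Fin N → EuclideanSpace ℝ (Fin (m + 1)))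
        (A : Fin N → Set ℝ), (∀ i, ‖e i‖ = 1) → (∀ i j, i ≠ j → δ ≤ ‖e i - e j‖) →
      (∀ i, (A i).Nonempty ∧ ∀ k ≤ K, DenseBetween κ (σ k) (ρ (k + 1)) (A i)) →
      ∀ (μ : ℝ) (X : Set (EuclideanSpace ℝ (Fin (m + 1)))), 0 ≤ μ →
      (∀ i, ∀ t ∈ A i,
        ENNReal.ofReal (μ * δ ^ (m + 1)) ≤ volume (X ∩ Metric.closedBall (c i + t • e i) δ)) →
      ENNReal.ofReal (b * μ * κ ^ P * δ ^ ε *
        (∏ k ∈ Finset.range K, σ (k + 1) / ρ (k + 1)) ^ (m + 1) * (N * δ ^ m)) ≤ volume X := by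
  have hK : Pool.KA.KP m := by
    rcases hm with rfl | rfl
    · exact Pool.K2S.kp_2
    · exact hKP
  obtain ⟨b, P, hb, hP, h⟩ := Pool.KMT.shadings_of_mnr (m := m) (Pool.KMX.mnr_thm hK K) hε
  refine ⟨b, P, hb, hP, ?_⟩
  intro δ hδ hδ1 σ ρ hσ0 hρK hρσ hσρ κ hκ hκ1 N c e A he hsep hA μ X hμ hX
  exact h δ hδ hδ1 σ ρ hσ0 hρK hρσ hσρ κ hκ hκ1 N c e A he hsep (fun i => (hA i).1)
    (fun i => (hA i).2) μ X hμ hX

end Pool.Agent.H73.R4.Candidate
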